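import Pool.Agent.PFC.StmtsB6
import Pool.Agent.Helper20_PP.Rst

set_option autoImplicit false

open scoped BigOperators

noncomputable section

namespace Pool.Agent.PFC.H52

open Pool.Agent.PFC
open Pool.Agent.Helper51_AWC Pool.Agent.Helper79_WRA Pool.Agent.PP Pool.Agent.PP.KF
open Pool.Agent.PP.K9 Pool.Agent.PP.K9.H97 Pool.Agent.PP.H75 Pool.Agent.PP.T3 Pool.Agent.PP.T2
open Pool.Agent.PP.T8 (Fr rs pw)

attribute [local instance] Ideal.Quotient.field

theorem jun : JunStmt := by
  intro ℓ _ M _ hM G _ _ e V γ hld j hj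
  have hb : Subgroup.centralizer ((⊥ : Subgroup G) : Set G) = ⊤ := by
    rw [Subgroup.coe_bot, eq_top_iff]
    intro x _
    rw [Subgroup.mem_centralizer_iff]
    intro h hh
    rw [Set.mem_singleton_iff] at hh
    rw [hh, one_mul, mul_one]
  have hbr : br ⊥ j = j := by
    funext t
    unfold br
    rw [hb, if_pos (Subgroup.mem_top t)]
  have hbx : Bx (Subgroup.centralizer ((⊥ : Subgroup G) : Set G)) e := by
    refine ⟨?_, ?_⟩
    · intro x hx
      rw [hb] at hx
      exact absurd (Subgroup.mem_top x) hx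
    · exact H20.IsBlk_equiv ((MulEquiv.subgroupCongr hb).trans Subgroup.topEquiv) hld.blk
  have h1 : mulF j e = j := by
    have h := hj.lb ⊥ bot_le e ⟨hbx, hld.und⟩
    rw [hbr] at h
    exact h
  have hcom : mulF j e = mulF e j := by
    refine mulF_comm_of (K := (⊤ : Subgroup G)) (fun x hx => absurd (Subgroup.mem_top x) hx) ?_
    intro k _
    rw [cj_eq_iff]
    intro x
    exact hld.blk.1.1 x k
  refine ⟨h1, ?_, ?_⟩
  · rw [← hcom, h1]
  · refine hj.lb V le_rfl γ ⟨hld.gam, ?_⟩
    have h2 : br V γ = γ := by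
      funext t
      unfold br
      by_cases ht : t ∈ Subgroup.centralizer (V : Set G)
      · rw [if_pos ht]
      · rw [if_neg ht, hld.gam.supp t ht]
    rw [h2]
    exact hld.gam.mul

end Pool.Agent.PFC.H52
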