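import Pool.Agent.PFC.StmtsB5a

set_option autoImplicit false

open scoped BigOperators

noncomputable section

namespace Pool.Agent.PFC.H52

open Pool.Agent.PFC Pool.Agent.PFC.B5a SemidirectProduct

section gen

variable {F Γ B : Type} [Field F] [Group Γ] [Fintype Γ] [Ring B] [Algebra F B]

theorem Ee_mul_left (γ : Γ →* B) (mu : B →ₗ[F] F) (h : Γ) (x : B) :
    Ee F γ mu (γ h * x) = γ h * Ee F γ mu x := by
  unfold Ee
  rw [Finset.mul_sum]
  refine Fintype.sum_equiv (Equiv.mulLeft h⁻¹) _ _ fun g => ?_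
  rw [Equiv.coe_mulLeft, mul_smul_comm, ← map_mul, mul_inv_cancel_left, mul_inv_rev, inv_inv,
    map_mul γ, mul_assoc]

theorem Ee_mul_right (γ : Γ →* B) (mu : B →ₗ[F] F) (hs : ∀ a b, mu (a * b) = mu (b * a)) (h : Γ)
    (x : B) : Ee F γ mu (x * γ h) = Ee F γ mu x * γ h := by
  unfold Ee
  rw [Finset.sum_mul]
  refine Fintype.sum_equiv (Equiv.mulRight h⁻¹) _ _ fun g => ?_
  rw [Equiv.coe_mulRight, smul_mul_assoc, ← map_mul, inv_mul_cancel_right, mul_inv_rev, inv_inv,
    map_mul γ, mul_assoc (γ h) (γ g⁻¹) x, hs (γ h), mul_assoc]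

theorem Ee_add (γ : Γ →* B) (mu : B →ₗ[F] F) (x y : B) :
    Ee F γ mu (x + y) = Ee F γ mu x + Ee F γ mu y := by
  unfold Ee
  rw [← Finset.sum_add_distrib]
  refine Finset.sum_congr rfl fun g _ => ?_
  rw [mul_add, map_add, add_smul]

theorem Ee_smul (γ : Γ →* B) (mu : B →ₗ[F] F) (c : F) (x : B) :
    Ee F γ mu (c • x) = c • Ee F γ mu x := by
  unfold Ee
  rw [Finset.smul_sum]
  refine Finset.sum_congr rfl fun g _ => ?_
  rw [mul_smul_comm, map_smul, smul_eq_mul, mul_smul]

theorem Ee_zero (γ : Γ →* B) (mu : B →ₗ[F] F) : Ee F γ mu 0 = 0 := by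
  unfold Ee
  simp

theorem Ee_span (γ : Γ →* B) (mu : B →ₗ[F] F) (hs : ∀ a b, mu (a * b) = mu (b * a)) (x s : B)
    (h : s ∈ Submodule.span F (Set.range γ)) : Ee F γ mu (x * s) = Ee F γ mu x * s := by
  induction h using Submodule.span_induction with
  | mem s h =>
    obtain ⟨g, rfl⟩ := h
    exact Ee_mul_right γ mu hs g x
  | zero => rw [mul_zero, mul_zero, Ee_zero]
  | add s t _ _ h1 h2 => rw [mul_add, mul_add, Ee_add, h1, h2]
  | smul c s _ h1 => rw [mul_smul_comm, mul_smul_comm, Ee_smul, h1]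

end gen

theorem sum_sd {V E : Type} [Group V] [Fintype V] [Group E] [Fintype E] (φ : E →* MulAut V)
    [Fintype (V ⋊[φ] E)] {M : Type} [AddCommMonoid M] (f : V ⋊[φ] E → M) :
    ∑ g, f g = ∑ e : E, ∑ u : V, f (inl u * inr e) := by
  rw [Finset.sum_comm, ← Fintype.sum_prod_type' (f := fun u e => f (inl u * inr e))]
  refine Fintype.sum_equiv SemidirectProduct.equivProd _ _ fun g => ?_
  have h : (inl (SemidirectProduct.equivProd g).1 : V ⋊[φ] E) *
      inr (SemidirectProduct.equivProd g).2 = g := inl_left_mul_inr_right g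
  rw [h]

theorem lam : LamStmt := by
  classical
  intro hFvt hCug ℓ _ F V E A _ _ _ _ _ _ _ _ _ φ e0 _ γ mu hctx hfrm
  have hs := hfrm.sym
  -- the subgroup `W`
  set W : Subgroup (V ⋊[φ] E) := (inl : V →* V ⋊[φ] E).range with hW
  have hWn : W.Normal := by
    rw [hW, range_inl_eq_ker_rightHom]
    infer_instance
  obtain ⟨u0, hu0⟩ := hctx.nt
  have hWb : W ≠ ⊥ := by
    intro h
    have h1 : (inl u0 : V ⋊[φ] E) ∈ W := ⟨u0, rfl⟩
    rw [h, Subgroup.mem_bot] at h1
    exact hu0 (inl_injective (h1.trans (map_one _).symm))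
  have hWp : IsPGroup ℓ W :=
    hctx.pg.of_surjective (inl : V →* V ⋊[φ] E).rangeRestrict (MonoidHom.rangeRestrict_surjective _)
  have hWc : ∀ a ∈ W, ∀ b ∈ W, a * b = b * a := by
    rintro _ ⟨a, rfl⟩ _ ⟨b, rfl⟩
    rw [← map_mul, ← map_mul, mul_comm]
  have hWf : ∀ t, t ∉ W → ∀ w ∈ W, t * w = w * t → w = 1 := by
    rintro t ht _ ⟨w, rfl⟩ h
    have h1 := congrArg SemidirectProduct.left h
    rw [mul_left, mul_left, left_inl, right_inl, map_one, MulAut.one_apply, mul_comm w t.left] at h1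
    have h2 : φ t.right w = w := mul_left_cancel h1
    rcases hctx.free _ _ h2 with h3 | h3
    · exfalso
      apply ht
      rw [hW, range_inl_eq_ker_rightHom, MonoidHom.mem_ker]
      exact h3
    · rw [h3, map_one]
  have hsum : (∑ᶠ w : W, γ w) = ∑ u, (γ.comp (inl : V →* V ⋊[φ] E)) u := by
    rw [← finsum_eq_sum_of_fintype]
    let eq : V ≃ W := (MonoidHom.ofInjective (f := (inl : V →* V ⋊[φ] E)) inl_injective).toEquiv
    rw [← finsum_comp_equiv eq]
    rfl
  obtain ⟨c', hc⟩ := hCug hFvt ℓ F (V ⋊[φ] E) A γ mu W hs hWn hWb hWp hWc hWf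
    (by rw [hsum]; exact hfrm.nz)
  refine ⟨c', hc, ?_⟩
  have hEc : Ee F γ mu c' = 1 := by
    have h1 := Ee_span γ mu hs 1 c' hc.spn
    rw [one_mul] at h1
    rw [h1, hc.rin]
  -- linear independence
  have hcard : ((Fintype.card V : ℕ) : F) = 0 := by
    rw [CharP.cast_eq_zero_iff F ℓ]
    obtain ⟨n, hn⟩ := IsPGroup.iff_card.mp hctx.pg
    rw [Nat.card_eq_fintype_card] at hn
    have hne : n ≠ 0 := by
      rintro rfl
      rw [pow_zero] at hn
      exact hu0 (Fintype.card_le_one_iff.mp hn.le u0 1)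
    rw [hn]
    exact dvd_pow_self ℓ hne
  have hmuf : ∀ f : E, f ≠ 1 → ∑ u : V, mu (γ (inl u * inr f)) = 0 := by
    intro f hf
    have hinj : Function.Injective (fun w : V => w * φ f w⁻¹) := by
      intro w w' h
      have h' : w * φ f w⁻¹ = w' * φ f w'⁻¹ := h
      have h1 : φ f (w'⁻¹ * w) = w'⁻¹ * w := by
        have h2 : φ f w⁻¹ = (φ f w)⁻¹ := map_inv _ _
        have h3 : φ f w'⁻¹ = (φ f w')⁻¹ := map_inv _ _
        rw [h2, h3] at h'
        rw [map_mul, h3]
        have h4 : w * (φ f w') = w' * (φ f w) := by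
          calc w * (φ f w') = (w * (φ f w)⁻¹) * (φ f w * φ f w') := by group
            _ = (w' * (φ f w')⁻¹) * (φ f w * φ f w') := by rw [h']
            _ = (w' * (φ f w')⁻¹) * (φ f w' * φ f w) := by rw [mul_comm (φ f w)]
            _ = w' * φ f w := by group
        calc (φ f w')⁻¹ * φ f w = (φ f w')⁻¹ * (w'⁻¹ * (w' * φ f w)) := by group
          _ = (φ f w')⁻¹ * (w'⁻¹ * (w * φ f w')) := by rw [h4]
          _ = (φ f w')⁻¹ * ((w'⁻¹ * w) * φ f w') := by group
          _ = (φ f w')⁻¹ * (φ f w' * (w'⁻¹ * w)) := by rw [mul_comm (w'⁻¹ * w)]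
          _ = w'⁻¹ * w := by group
      rcases hctx.free _ _ h1 with h2 | h2
      · exact absurd h2 hf
      · exact (inv_mul_eq_one.mp h2).symm
    have hsurj := Finite.surjective_of_injective hinj
    have h1 : ∀ u : V, mu (γ (inl u * inr f)) = mu (γ (inr f)) := by
      intro u
      obtain ⟨w, hw⟩ := hsurj u
      have h2 : (inl u * inr f : V ⋊[φ] E) = inl w * (inr f * inl w⁻¹) := by
        rw [← hw]
        ext
        · simp
        · simp
      rw [h2, map_mul, hs, ← map_mul, mul_assoc, ← map_mul, inv_mul_cancel, map_one, mul_one]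
    rw [Finset.sum_congr rfl fun u _ => h1 u, Finset.sum_const, Finset.card_univ,
      ← Nat.cast_smul_eq_nsmul F, hcard, zero_smul]
  have hli : ∀ k : V ⋊[φ] E → F, ∑ g, k g • γ g = 0 → k = 0 := by
    let T : (V ⋊[φ] E → F) →ₗ[F] A := Fintype.linearCombination F (γ : V ⋊[φ] E → A)
    have hT : ∀ k, T k = ∑ g, k g • γ g := fun k => rfl
    let ρ : V →* ((V ⋊[φ] E → F) →ₗ[F] (V ⋊[φ] E → F)) :=
      { toFun := fun v => LinearMap.funLeft F F (fun g : V ⋊[φ] E => inl v⁻¹ * g)
        map_one' := by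
          ext k g
          simp
        map_mul' := by
          intro v w
          ext k g
          simp [mul_assoc] }
    have hρ : ∀ v k g, ρ v k g = k (inl v⁻¹ * g) := fun v k g => rfl
    have hst : ∀ v : V, ∀ m ∈ LinearMap.ker T, ρ v m ∈ LinearMap.ker T := by
      intro v m hm
      rw [LinearMap.mem_ker, hT] at hm ⊢
      have h1 : ∑ g, ρ v m g • γ g = γ (inl v) * ∑ g, m g • γ g := by
        rw [Finset.mul_sum]
        refine Fintype.sum_equiv (Equiv.mulLeft (inl v⁻¹)) _ _ fun g => ?_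
        rw [hρ, Equiv.coe_mulLeft, mul_smul_comm, ← map_mul, ← mul_assoc, ← map_mul,
          mul_inv_cancel, map_one, one_mul]
      rw [h1, hm, mul_zero]
    by_contra hcon
    push Not at hcon
    obtain ⟨k, hk, hk0⟩ := hcon
    have hN : LinearMap.ker T ≠ ⊥ := by
      intro h
      have h1 : k ∈ LinearMap.ker T := by rw [LinearMap.mem_ker, hT]; exact hk
      rw [h, Submodule.mem_bot] at h1
      exact hk0 h1
    obtain ⟨m, hm, hm0, hmf⟩ := hFvt ℓ F V (V ⋊[φ] E → F) ρ (LinearMap.ker T) hctx.pg hst hN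
    have hinv : ∀ (v : V) (e : E), m (inl v * inr e) = m (inr e) := by
      intro v e
      have h1 := congrFun (hmf v (Subgroup.mem_top v)) (inl v * inr e)
      rw [hρ, ← mul_assoc, ← map_mul, inv_mul_cancel, map_one, one_mul] at h1
      exact h1.symm
    have hex : ∃ e1 : E, m (inr e1) ≠ 0 := by
      by_contra hcon
      push Not at hcon
      apply hm0
      ext g
      rw [← inl_left_mul_inr_right g, hinv, hcon]
      rfl
    obtain ⟨e1, he1⟩ := hex
    rw [LinearMap.mem_ker, hT, sum_sd] at hm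
    have h1 : mu ((∑ e : E, ∑ u : V, m (inl u * inr e) • γ (inl u * inr e)) * γ (inr e1⁻¹)) = 0 := by
      rw [hm, zero_mul, map_zero]
    rw [Finset.sum_mul, map_sum] at h1
    have h2 : ∀ e : E, mu ((∑ u : V, m (inl u * inr e) • γ (inl u * inr e)) * γ (inr e1⁻¹)) =
        m (inr e) * ∑ u : V, mu (γ (inl u * inr (e * e1⁻¹))) := by
      intro e
      rw [Finset.sum_mul, map_sum, Finset.mul_sum]
      refine Finset.sum_congr rfl fun u _ => ?_
      rw [hinv, smul_mul_assoc, map_smul, smul_eq_mul, ← map_mul, mul_assoc, ← map_mul]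
    rw [Finset.sum_congr rfl fun e _ => h2 e, Finset.sum_eq_single e1] at h1
    · rw [mul_inv_cancel, map_one] at h1
      have h3 : ∑ u : V, mu (γ (inl u * 1)) = mu (∑ u, (γ.comp (inl : V →* V ⋊[φ] E)) u) := by
        rw [map_sum]
        refine Finset.sum_congr rfl fun u _ => ?_
        rw [mul_one]
        rfl
      rw [h3] at h1
      exact (mul_ne_zero he1 hfrm.nz) h1
    · intro e _ he
      rw [hmuf, mul_zero]
      intro h
      exact he (mul_inv_eq_one.mp h)
    · intro h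
      exact absurd (Finset.mem_univ _) h
  have hδ : ∀ g h : V ⋊[φ] E, mu (γ g⁻¹ * (γ h * c')) = if g = h then 1 else 0 := by
    intro g h
    have h1 : Ee F γ mu (γ h * c') = γ h := by
      rw [Ee_mul_left, hEc, mul_one]
    have h2 : ∑ g, (mu (γ g⁻¹ * (γ h * c')) - if g = h then 1 else 0) • γ g = 0 := by
      simp only [sub_smul, Finset.sum_sub_distrib]
      have h3 : ∑ g, mu (γ g⁻¹ * (γ h * c')) • γ g = γ h := h1
      rw [h3]
      simp
    exact sub_eq_zero.mp (congrFun (hli _ h2) g)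
  refine ⟨mu.comp (LinearMap.mulRight F c'), fun x => rfl, ?_, ?_, ?_, ?_⟩
  · have h1 := hδ 1 1
    rw [inv_one, map_one, one_mul, one_mul, if_pos rfl] at h1
    change mu (1 * c') = 1
    rw [one_mul]
    exact h1
  · intro g hg
    have h1 := hδ 1 g
    rw [inv_one, map_one, one_mul, if_neg (Ne.symm hg)] at h1
    exact h1
  · intro g a
    change mu (γ g * a * c') = mu (a * γ g * c')
    rw [mul_assoc, hs, mul_assoc a c' (γ g), hc.com, ← mul_assoc]
  · intro x
    rw [← Ee_span γ mu hs x c' hc.spn]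
    refine Finset.sum_congr rfl fun g _ => ?_
    change mu (γ g⁻¹ * (x * c')) • γ g = mu (γ g⁻¹ * x * c') • γ g
    rw [mul_assoc]

end Pool.Agent.PFC.H52
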