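import Pool.Agent.PFC.StmtsB5c

set_option autoImplicit false

open scoped BigOperators TensorProduct

noncomputable section

namespace Pool.Agent.PFC.H52

open Pool.Agent.PFC.B5c

theorem zmx : ZmxStmt := by
  intro F N A _ _ _ _ _ n hn ⟨e⟩
  have : NeZero n := ⟨hn.ne'⟩
  have hcen : Algebra.IsCentral F N := Algebra.IsCentral.of_algEquiv F _ _ e.symm
  have hnt : Nontrivial N := e.toEquiv.nontrivial
  have hinj : Function.Injective (Algebra.TensorProduct.includeRight : A →ₐ[F] N ⊗[F] A) :=
    Algebra.TensorProduct.includeRight_injective (FaithfulSMul.algebraMap_injective F N)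
  have hin : ∀ a : A, (Algebra.TensorProduct.includeRight : A →ₐ[F] N ⊗[F] A) a = 1 ⊗ₜ[F] a :=
    fun a => rfl
  have key : ∀ z : N ⊗[F] A, (∀ a, z * a = a * z) →
      ∃ c : A, (∀ a, c * a = a * c) ∧ z = 1 ⊗ₜ[F] c := by
    intro z hz
    have h1 : z ∈ Subalgebra.centralizer F
        ((Algebra.TensorProduct.includeLeft : N →ₐ[F] N ⊗[F] A).range : Set (N ⊗[F] A)) := by
      rw [Subalgebra.mem_centralizer_iff]
      intro g _
      exact (hz g).symm
    rw [Subalgebra.centralizer_coe_range_includeLeft_eq_center_tensorProduct] at h1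
    obtain ⟨w, rfl⟩ := h1
    have h2 : ∀ w : (Subalgebra.center F N) ⊗[F] A, ∃ c : A,
        Algebra.TensorProduct.map (Subalgebra.center F N).val (AlgHom.id F A) w = 1 ⊗ₜ[F] c := by
      intro w
      induction w using TensorProduct.induction_on with
      | zero => exact ⟨0, by rw [map_zero, TensorProduct.tmul_zero]⟩
      | tmul b a =>
        obtain ⟨b, hb⟩ := b
        have hb' := hb
        rw [Algebra.IsCentral.center_eq_bot, Algebra.mem_bot] at hb'
        obtain ⟨r, hr⟩ := hb'
        refine ⟨r • a, ?_⟩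
        rw [Algebra.TensorProduct.map_tmul]
        change b ⊗ₜ[F] a = _
        rw [← hr, Algebra.algebraMap_eq_smul_one, TensorProduct.smul_tmul]
      | add x y hx hy =>
        obtain ⟨c, hc⟩ := hx
        obtain ⟨d, hd⟩ := hy
        exact ⟨c + d, by rw [map_add, hc, hd, TensorProduct.tmul_add]⟩
    obtain ⟨c, hc⟩ := h2 w
    have hz' : ∀ a, ((1 : N) ⊗ₜ[F] c) * a = a * ((1 : N) ⊗ₜ[F] c) := by
      intro a
      rw [← hc]
      exact hz a
    refine ⟨c, fun a => ?_, hc⟩
    apply hinj
    have h3 := hz' (1 ⊗ₜ[F] a)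
    rw [Algebra.TensorProduct.tmul_mul_tmul, Algebra.TensorProduct.tmul_mul_tmul, one_mul] at h3
    exact h3
  refine ⟨key, ?_⟩
  let T : Subalgebra.center F A →ₗ[F] Subalgebra.center F (N ⊗[F] A) :=
    { toFun := fun c => ⟨1 ⊗ₜ[F] (c : A), Algebra.TensorProduct.includeRight_map_center_le F N A
        ⟨c, c.2, rfl⟩⟩
      map_add' := fun c d => Subtype.ext (TensorProduct.tmul_add _ _ _)
      map_smul' := fun r c => Subtype.ext (TensorProduct.tmul_smul _ _ _) }
  have hT : Function.Bijective T := by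
    constructor
    · intro c d h
      have h1 := congrArg Subtype.val h
      exact Subtype.ext (hinj h1)
    · rintro ⟨z, hz⟩
      rw [Subalgebra.mem_center_iff] at hz
      obtain ⟨c, hc, hzc⟩ := key z (fun a => (hz a).symm)
      exact ⟨⟨c, Subalgebra.mem_center_iff.mpr fun a => (hc a).symm⟩, Subtype.ext hzc.symm⟩
  exact (LinearEquiv.ofBijective T hT).finrank_eq.symm

end Pool.Agent.PFC.H52
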