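import Pool.Agent.PFC.StmtsB4b
import Mathlib.Combinatorics.Enumerative.IncidenceAlgebra

set_option autoImplicit false

open scoped BigOperators

noncomputable section

namespace Pool.Agent.PFC.H52

open Pool.Agent.PFC

section lat

open Classical

variable {L : Type} [SemilatticeSup L] [OrderBot L] [Fintype L]

theorem exists_mu : ∃ μ : L → ℤ, ∀ S : L, (∑ Q, if Q ≤ S then μ Q else 0) = if S = ⊥ then 1 else 0 := by
  letI : LocallyFiniteOrder L := Fintype.toLocallyFiniteOrder
  refine ⟨fun Q => IncidenceAlgebra.mu ℤ (⊥ : L) Q, fun S => ?_⟩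
  rw [← Finset.sum_filter]
  have h := IncidenceAlgebra.sum_Icc_mu_right (𝕜 := ℤ) (⊥ : L) S
  have h1 : Finset.univ.filter (fun Q : L => Q ≤ S) = Finset.Icc ⊥ S := by
    ext Q
    rw [Finset.mem_filter, Finset.mem_Icc]
    constructor
    · rintro ⟨_, h⟩
      exact ⟨bot_le, h⟩
    · rintro ⟨_, h⟩
      exact ⟨Finset.mem_univ _, h⟩
  rw [h1, h]
  by_cases hS : S = ⊥
  · rw [if_pos hS, if_pos hS.symm]
  · rw [if_neg hS, if_neg (Ne.symm hS)]

theorem mu_unique {μ ν : L → ℤ}
    (hμ : ∀ S : L, (∑ Q, if Q ≤ S then μ Q else 0) = if S = ⊥ then 1 else 0)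
    (hν : ∀ S : L, (∑ Q, if Q ≤ S then ν Q else 0) = if S = ⊥ then 1 else 0) : ∀ S, μ S = ν S := by
  intro S
  induction S using WellFoundedLT.induction with
  | ind S ih =>
    have h1 := (hμ S).trans (hν S).symm
    have h2 : ∀ ρ : L → ℤ, (∑ Q, if Q ≤ S then ρ Q else 0) =
        ρ S + ∑ Q, if Q < S then ρ Q else 0 := by
      intro ρ
      have h3 : ∀ Q : L, (if Q ≤ S then ρ Q else 0) =
          (if Q = S then ρ Q else 0) + if Q < S then ρ Q else 0 := by
        intro Q
        by_cases hQ : Q = S
        · subst hQ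
          simp
        · by_cases hQ' : Q ≤ S
          · rw [if_pos hQ', if_neg hQ, if_pos (lt_of_le_of_ne hQ' hQ), zero_add]
          · rw [if_neg hQ', if_neg hQ, if_neg (fun h => hQ' h.le), zero_add]
      rw [Finset.sum_congr rfl fun Q _ => h3 Q, Finset.sum_add_distrib]
      simp
    rw [h2, h2] at h1
    have h4 : (∑ Q, if Q < S then μ Q else 0) = ∑ Q, if Q < S then ν Q else 0 := by
      refine Finset.sum_congr rfl fun Q _ => ?_
      by_cases hQ : Q < S
      · rw [if_pos hQ, if_pos hQ, ih Q hQ]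
      · rw [if_neg hQ, if_neg hQ]
    rw [h4] at h1
    exact add_right_cancel h1

theorem weisner {μ : L → ℤ}
    (hμ : ∀ S : L, (∑ Q, if Q ≤ S then μ Q else 0) = if S = ⊥ then 1 else 0) {R : L} (hR : R ≠ ⊥) :
    ∀ S, (∑ Q, if Q ⊔ R = S then μ Q else 0) = 0 := by
  intro S
  induction S using WellFoundedLT.induction with
  | ind S ih =>
    by_cases hRS : R ≤ S
    · have hS : S ≠ ⊥ := by
        rintro rfl
        exact hR (le_bot_iff.mp hRS)
      have h1 : (∑ S', if S' ≤ S then ∑ Q, (if Q ⊔ R = S' then μ Q else 0) else 0) = 0 := by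
        have h2 : (∑ S', if S' ≤ S then ∑ Q, (if Q ⊔ R = S' then μ Q else 0) else 0) =
            ∑ Q, if Q ≤ S then μ Q else 0 := by
          have h3 : ∀ S', (if S' ≤ S then ∑ Q, (if Q ⊔ R = S' then μ Q else 0) else 0) =
              ∑ Q, if S' ≤ S then (if Q ⊔ R = S' then μ Q else 0) else 0 := by
            intro S'
            by_cases h : S' ≤ S
            · simp only [if_pos h]
            · simp only [if_neg h, Finset.sum_const_zero]
          rw [Finset.sum_congr rfl fun S' _ => h3 S', Finset.sum_comm]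
          refine Finset.sum_congr rfl fun Q _ => ?_
          rw [Finset.sum_eq_single (Q ⊔ R)]
          · rw [if_pos rfl]
            by_cases h : Q ≤ S
            · rw [if_pos h, if_pos (sup_le h hRS)]
            · rw [if_neg h, if_neg (fun h' => h (le_sup_left.trans h'))]
          · intro S' _ h
            rw [if_neg (Ne.symm h), ite_self]
          · intro h
            exact absurd (Finset.mem_univ _) h
        rw [h2, hμ, if_neg hS]
      rw [Finset.sum_eq_single S] at h1
      · rw [if_pos le_rfl] at h1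
        exact h1
      · intro S' _ h
        by_cases h' : S' ≤ S
        · rw [if_pos h', ih S' (lt_of_le_of_ne h' h)]
        · rw [if_neg h']
      · intro h
        exact absurd (Finset.mem_univ _) h
    · refine Finset.sum_eq_zero fun Q _ => ?_
      rw [if_neg]
      intro h
      exact hRS (h ▸ le_sup_right)

theorem mu_bot {μ : L → ℤ}
    (hμ : ∀ S : L, (∑ Q, if Q ≤ S then μ Q else 0) = if S = ⊥ then 1 else 0) : μ ⊥ = 1 := by
  have h := hμ ⊥
  rw [if_pos rfl] at h
  rw [← h]
  symm
  rw [Finset.sum_eq_single ⊥]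
  · rw [if_pos le_rfl]
  · intro Q _ hQ
    rw [if_neg (fun h => hQ (le_bot_iff.mp h))]
  · intro h
    exact absurd (Finset.mem_univ _) h

end lat

theorem qmo : QmoStmt := by
  classical
  intro V _ _
  have : Fintype (Subgroup V) := Fintype.ofFinite _
  obtain ⟨μ, hμ⟩ := exists_mu (L := Subgroup V)
  refine ⟨μ, ?_, ?_⟩
  · intro σ
    have h1 : ∀ S : Subgroup V,
        (∑ Q : Subgroup V, if Q ≤ S then μ (Q.map σ.toMonoidHom) else 0) =
          if S = ⊥ then 1 else 0 := by
      intro S
      have hinj : Function.Injective (fun Q : Subgroup V => Q.map σ.toMonoidHom) :=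
        Subgroup.map_injective σ.injective
      have hbij : Function.Bijective (fun Q : Subgroup V => Q.map σ.toMonoidHom) :=
        Finite.injective_iff_bijective.mp hinj
      have h2 := hμ (S.map σ.toMonoidHom)
      have h3 : (∑ Q : Subgroup V, if Q ≤ S then μ (Q.map σ.toMonoidHom) else 0) =
          ∑ Q : Subgroup V, if Q ≤ S.map σ.toMonoidHom then μ Q else 0 := by
        refine Fintype.sum_bijective _ hbij _ _ fun Q => ?_
        by_cases h : Q ≤ S
        · rw [if_pos h, if_pos (Subgroup.map_mono h)]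
        · rw [if_neg h, if_neg]
          intro h'
          exact h ((Subgroup.map_le_map_iff_of_injective σ.injective).mp h')
      rw [h3, h2]
      by_cases h : S = ⊥
      · rw [if_pos h, if_pos (by rw [h, Subgroup.map_bot])]
      · rw [if_neg h, if_neg]
        intro h'
        apply h
        apply hinj
        change S.map σ.toMonoidHom = (⊥ : Subgroup V).map σ.toMonoidHom
        rw [h', Subgroup.map_bot]
    exact mu_unique h1 hμ
  · intro R S hR
    have h1 := weisner hμ hR S
    have h2 : ∑ᶠ Q ∈ {Q : Subgroup V | Q ≠ ⊥ ∧ Q ⊔ R = S}, μ Q =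
        ∑ Q : Subgroup V, if Q ≠ ⊥ ∧ Q ⊔ R = S then μ Q else 0 := by
      rw [finsum_mem_def, finsum_eq_sum_of_fintype]
      refine Finset.sum_congr rfl fun Q _ => ?_
      rw [Set.indicator_apply]
      rfl
    have h3 : ∀ Q : Subgroup V, (if Q ⊔ R = S then μ Q else 0) =
        (if Q ≠ ⊥ ∧ Q ⊔ R = S then μ Q else 0) + if Q = ⊥ then (if R = S then 1 else 0) else 0 := by
      intro Q
      by_cases hQ : Q = ⊥
      · subst hQ
        have hne : ¬ ((⊥ : Subgroup V) ≠ ⊥ ∧ (⊥ : Subgroup V) ⊔ R = S) := fun h => h.1 rfl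
        rw [if_neg hne, zero_add, if_pos rfl, bot_sup_eq, mu_bot hμ]
      · rw [if_neg hQ, add_zero]
        by_cases h : Q ⊔ R = S
        · rw [if_pos h, if_pos ⟨hQ, h⟩]
        · rw [if_neg h, if_neg (fun h' => h h'.2)]
    rw [Finset.sum_congr rfl fun Q _ => h3 Q, Finset.sum_add_distrib, ← h2] at h1
    have h4 : (∑ Q : Subgroup V, if Q = ⊥ then (if R = S then (1 : ℤ) else 0) else 0) =
        if R = S then 1 else 0 := by
      rw [Finset.sum_ite_eq' Finset.univ (⊥ : Subgroup V), if_pos (Finset.mem_univ _)]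
    rw [h4] at h1
    constructor
    · intro h
      rw [if_pos h.symm] at h1
      linarith
    · intro h
      rw [if_neg (Ne.symm h)] at h1
      linarith

end Pool.Agent.PFC.H52
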